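import Pool.Agent.N922.PY.Stm
import Pool.Agent.N400.PQ.Main

set_option autoImplicit false
set_option linter.all false

/-!
# PY/MAIN4: a positive proportion with `f = f0` modulo four (helper865)

Adapted from `Pool/Agent/N400/PQ/Main.lean` of helper400.
-/

open Polynomial
open scoped Classical

namespace Pool.Agent.N865.PY

open Pool.Agent.N783.PQ
open Pool.Agent.N400.PQ (card_fib ht_card ht_scale scale_inj good_card)
open Pool.Agent.N922.PY (S_FAM4 S_MAIN4 f0)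
open Pool.Agent.N352.PJ (dd)

/-- products of primes congruent to one modulo eight -/
theorem prod_one {S : Finset ℕ} (hS : ∀ q ∈ S, q % 8 = 1) (J : Finset ℕ) (hJ : J ⊆ S) :
    (∏ q ∈ J, q) % 8 = 1 := by
  induction J using Finset.induction_on with
  | empty => simp
  | insert a J ha ih =>
    rw [Finset.prod_insert ha, Nat.mul_mod, hS a (hJ (Finset.mem_insert_self _ _)),
      ih (fun x hx => hJ (Finset.mem_insert_of_mem hx))]

/-- twisting and the congruence modulo four -/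
theorem cg_scale {f f' : ℤ[X]} (D : ℕ) (hD : D % 8 = 1) (h : Cg 4 f f') :
    Cg 4 (f.scaleRoots (D : ℤ)) f' := by
  intro j
  rw [coeff_scaleRoots]
  have h1 : (4 : ℤ) ∣ (D : ℤ) ^ (f.natDegree - j) - 1 := by
    have h2 : (4 : ℤ) ∣ (D : ℤ) - 1 := by omega
    exact h2.trans (by simpa using sub_dvd_pow_sub_pow (D : ℤ) 1 (f.natDegree - j))
  have h3 : f.coeff j * (D : ℤ) ^ (f.natDegree - j) - f'.coeff j =
      f.coeff j * ((D : ℤ) ^ (f.natDegree - j) - 1) + (f.coeff j - f'.coeff j) := by ring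
  rw [h3]
  exact dvd_add (Dvd.dvd.mul_left h1 _) (h j)

/-- the congruence modulo four in the family -/
theorem cg_fam {W : ℕ} {f f₁ f' : ℤ[X]} (h1 : Cg W f f₁) (hW : 4 ∣ W) (h2 : Cg 4 f₁ f') :
    Cg 4 f f' := by
  intro j
  have h3 : (4 : ℤ) ∣ f.coeff j - f₁.coeff j :=
    (by exact_mod_cast hW : (4 : ℤ) ∣ (W : ℤ)).trans (h1 j)
  have h4 : f.coeff j - f'.coeff j = (f.coeff j - f₁.coeff j) + (f₁.coeff j - f'.coeff j) := by
    ring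
  rw [h4]
  exact dvd_add h3 (h2 j)

/-- PY/MAIN4 -/
theorem main4_of (h2 : S_BAD) (h3 : S_EXS) (h4 : S_TW) (h1 : S_FAM4) : S_MAIN4 := by
  have hg : 1 ≤ 2 := by norm_num
  obtain ⟨W, f₁, hf₁, hW4, hf0, c, hc, hfam⟩ := h1
  obtain ⟨κ, htw⟩ := h4 2 hg
  obtain ⟨C, hbad⟩ := h2 2 κ hg
  obtain ⟨m, hm⟩ : ∃ m : ℕ, 2 * (C * (4 * 2 ^ κ : ℝ) ^ dd 2) / c < 2 ^ m :=
    pow_unbounded_of_one_lt _ (by norm_num)
  obtain ⟨S, h, hS, hcard⟩ := h3 2 W hg m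
  obtain ⟨B₁₀, hB₁₀⟩ := hfam S h hS
  obtain ⟨N₀, hN₀⟩ := hbad W S h hS
  set Q : ℕ := ∏ q ∈ S, q with hQ
  have hq1 : ∀ q ∈ S, 1 ≤ q := fun q hq => (hS q hq).1.pos
  have hQ1 : 1 ≤ Q := Finset.one_le_prod' hq1
  set P : ℕ := ∏ q ∈ S, q ^ (2 * 2) with hP
  have hP0 : (0 : ℝ) < P := by
    have : 0 < P := Finset.prod_pos fun q hq => pow_pos (hq1 q hq) _
    exact_mod_cast this
  have hQ0 : (0 : ℝ) < Q := by exact_mod_cast hQ1
  set X₀ : ℕ := max (max B₁₀ (4 ^ N₀)) 1 with hX₀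
  refine ⟨c / 2 / (P * 2 ^ m * (3 ^ (2 * 2) * (2 * Q) ^ dd 2)), by positivity, X₀ * Q,
    fun B hB => ?_⟩
  set B₁ : ℕ := B / Q with hB₁
  have hBX : X₀ ≤ B₁ := (Nat.le_div_iff_mul_le hQ1).2 hB
  have hb1 : 1 ≤ B₁ := (le_max_right _ _).trans hBX
  have hb2 : B₁₀ ≤ B₁ := ((le_max_left _ _).trans (le_max_left _ _)).trans hBX
  have hb3 : 4 ^ N₀ ≤ B₁ := ((le_max_right _ _).trans (le_max_left _ _)).trans hBX
  have hBQ : B₁ * Q ≤ B := Nat.div_mul_le_self B Q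
  have hBQ2 : B ≤ 2 * Q * B₁ := by
    have e1 : B < B₁ * Q + Q := by
      have := Nat.lt_div_mul_add (a := B) (b := Q) hQ1
      exact this
    nlinarith
  have hB1 : 1 ≤ B := le_trans (by nlinarith) hBQ
  obtain ⟨N, hNa, hNb⟩ : ∃ N : ℕ, 2 ^ κ * B₁ ≤ 4 ^ N ∧ 4 ^ N ≤ 4 * (2 ^ κ * B₁) := by
    refine ⟨Nat.log 4 (2 ^ κ * B₁) + 1, (Nat.lt_pow_succ_log_self (by norm_num) _).le, ?_⟩
    rw [pow_succ, mul_comm]
    refine Nat.mul_le_mul_left 4 (Nat.pow_log_le_self 4 ?_)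
    positivity
  have hNN : N₀ ≤ N := by
    have e1 : 4 ^ N₀ ≤ 4 ^ N := hb3.trans (le_trans (Nat.le_mul_of_pos_left _ (by positivity)) hNa)
    exact (Nat.pow_le_pow_iff_right (by norm_num)).1 e1
  obtain ⟨hfin, hBd⟩ := hN₀ N hNN
  refine ⟨(ht_card 2 B hB1).1, ?_⟩
  set H := {f : ℤ[X] | Ht 2 B f ∧ Irreducible (ov ℚ f) ∧ SelZero f ∧ Cg 4 f f0} with hH
  set G := {f : ℤ[X] | Fam 2 B₁ W f₁ S h f ∧ ¬ LBad 2 N κ S h f} with hGdef
  have hHf : H.Finite := (ht_card 2 B hB1).1.subset fun f hf => hf.1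
  have hGf : G.Finite := (ht_card 2 B₁ hb1).1.subset fun f hf => hf.1.ht
  have hG : c / 2 * (B₁ : ℝ) ^ dd 2 ≤ P * (G.ncard : ℝ) := by
    refine good_card (C := C) (m := m) hc hP0 B₁ N (hB₁₀ B₁ hb2) hfin ?_ hm ?_
    · rw [hcard] at hBd
      exact_mod_cast hBd
    · exact_mod_cast hNb
  have hJ0 : ∀ J ⊆ S, ((∏ q ∈ J, q : ℕ) : ℤ) ≠ 0 := by
    intro J hJ
    have : 0 < ∏ q ∈ J, q := Finset.prod_pos fun q hq => hq1 q (hJ hq)
    exact_mod_cast this.ne'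
  have hcard1 := card_fib hGf hHf S (fun J f => f.scaleRoots ((∏ q ∈ J, q : ℕ) : ℤ)) (by
      intro f hf
      obtain ⟨J, hJ, hirr, hsel⟩ := htw B₁ N W f₁ S h f hf₁ hS hf.1 hNa hb1 hf.2
      have hDle : ∏ q ∈ J, q ≤ Q :=
        Finset.prod_le_prod_of_subset_of_one_le' hJ fun q hq _ => hq1 q hq
      exact ⟨J, hJ, ht_scale hf.1.ht ((Nat.mul_le_mul_left _ hDle).trans hBQ), hirr, hsel,
        cg_scale _ (prod_one (fun q hq => (hS q hq).2.2.2.1) J hJ)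
          (cg_fam hf.1.one hW4 hf0)⟩) (by
      intro J hJ x hx y hy hxy
      exact scale_inj (hJ0 J hJ) (by rw [hx.1.ht.deg, hy.1.ht.deg]) hxy)
  rw [hcard] at hcard1
  have hcard' : (G.ncard : ℝ) ≤ 2 ^ m * H.ncard := by exact_mod_cast hcard1
  have hM' : ({f : ℤ[X] | Ht 2 B f}.ncard : ℝ) ≤
      3 ^ (2 * 2) * (2 * Q) ^ dd 2 * (B₁ : ℝ) ^ dd 2 := by
    have e1 : ({f : ℤ[X] | Ht 2 B f}.ncard : ℝ) ≤ 3 ^ (2 * 2) * (B : ℝ) ^ dd 2 := by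
      exact_mod_cast (ht_card 2 B hB1).2
    refine e1.trans ?_
    rw [mul_assoc, ← mul_pow]
    have e2 : (B : ℝ) ≤ 2 * Q * B₁ := by exact_mod_cast hBQ2
    gcongr
  calc c / 2 / (P * 2 ^ m * (3 ^ (2 * 2) * (2 * Q) ^ dd 2)) *
        ({f : ℤ[X] | Ht 2 B f}.ncard : ℝ)
      ≤ c / 2 / (P * 2 ^ m * (3 ^ (2 * 2) * (2 * Q) ^ dd 2)) *
        (3 ^ (2 * 2) * (2 * Q) ^ dd 2 * (B₁ : ℝ) ^ dd 2) :=
        mul_le_mul_of_nonneg_left hM' (by positivity)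
    _ = c / 2 * (B₁ : ℝ) ^ dd 2 / (P * 2 ^ m) := by
        field_simp
    _ ≤ (P * (G.ncard : ℝ)) / (P * 2 ^ m) := by gcongr
    _ ≤ (P * (2 ^ m * H.ncard)) / (P * 2 ^ m) := by gcongr
    _ = H.ncard := by field_simp

end Pool.Agent.N865.PY
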